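import Pool.Agent.Q187.PS.Stm

/-!
# Project PS, job MINK: the perimeter is at most the outer Minkowski content
-/

set_option autoImplicit false

open MeasureTheory Set Filter Topology Metric
open scoped RealInnerProductSpace ENNReal NNReal

namespace Pool.Agent.Q199.PS

/-- the determinant is smooth -/
theorem contDiff_det {n : ℕ} :
    ContDiff ℝ ⊤ (fun M : Fin n → Fin n → ℝ => Matrix.det (Matrix.of M)) := by
  simp only [Matrix.det_apply, Matrix.of_apply]
  refine ContDiff.sum fun σ _ => ?_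
  refine ContDiff.const_smul _ ?_
  refine contDiff_prod fun i _ => ?_
  fun_prop

/-- the derivative of the determinant at the identity -/
theorem det_fderiv {n : ℕ} : ∃ L : (Fin n → Fin n → ℝ) →L[ℝ] ℝ,
    HasFDerivAt (fun M : Fin n → Fin n → ℝ => Matrix.det (Matrix.of M)) L
      (fun i j => (1 : Matrix (Fin n) (Fin n) ℝ) i j) ∧
    ∀ E : Matrix (Fin n) (Fin n) ℝ, L (fun i j => E i j) = E.trace := by
  have h1 : DifferentiableAt ℝ (fun M : Fin n → Fin n → ℝ => Matrix.det (Matrix.of M))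
      (fun i j => (1 : Matrix (Fin n) (Fin n) ℝ) i j) := (contDiff_det.differentiable (by simp)) _
  obtain ⟨L, hL⟩ := h1
  refine ⟨L, hL, ?_⟩
  intro E
  have h2 : HasDerivAt (fun t : ℝ => (fun i j => (1 + t • E) i j : Fin n → Fin n → ℝ))
      (fun i j => E i j) 0 := by
    refine hasDerivAt_pi.2 fun i => hasDerivAt_pi.2 fun j => ?_
    have : HasDerivAt (fun t : ℝ => (1 : Matrix (Fin n) (Fin n) ℝ) i j + t * E i j) (1 * E i j) 0 :=
      ((hasDerivAt_id (0 : ℝ)).mul_const _).const_add _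
    rw [one_mul] at this
    exact this
  have h3 : HasFDerivAt (fun M : Fin n → Fin n → ℝ => Matrix.det (Matrix.of M)) L
      ((fun t : ℝ => (fun i j => (1 + t • E) i j : Fin n → Fin n → ℝ)) 0) := by
    convert hL using 1
    funext i j
    simp
  have h4 := h3.comp_hasDerivAt (0 : ℝ) h2
  have h5 : HasDerivAt (fun t : ℝ => (1 + t • E).det) (L (fun i j => E i j)) 0 := h4
  have h6 : HasDerivAt (fun t : ℝ => (1 + t • E).det) E.trace 0 := by
    obtain ⟨P, hP⟩ : ∃ P : Polynomial ℝ, ∀ t : ℝ, (1 + t • E).det = 1 + E.trace * t +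
        Polynomial.eval t P * t ^ 2 := ⟨_, fun t => Matrix.det_one_add_smul t E⟩
    simp only [hP]
    have k1 : HasDerivAt (fun t : ℝ => 1 + E.trace * t) E.trace 0 := by
      have := ((hasDerivAt_id (0 : ℝ)).const_mul E.trace).const_add 1
      rwa [mul_one] at this
    have k2 := (P.hasDerivAt (0 : ℝ)).mul (hasDerivAt_pow 2 (0 : ℝ))
    have k3 := k1.add k2
    have k4 : E.trace = E.trace + (Polynomial.eval 0 (Polynomial.derivative P) * (0 : ℝ) ^ 2 +
        Polynomial.eval 0 P * (((2 : ℕ) : ℝ) * (0 : ℝ) ^ (2 - 1))) := by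
      simp
    rw [← k4] at k3
    exact k3
  exact h5.unique h6

section
variable {X : Type} [NormedAddCommGroup X] [InnerProductSpace ℝ X] [FiniteDimensional ℝ X]

/-- First order expansion of the determinant near the identity, for endomorphisms. -/
theorem det_near {ε : ℝ} (hε : 0 < ε) : ∃ δ : ℝ, 0 < δ ∧ ∀ A : X →L[ℝ] X, ‖A‖ < δ →
    |(1 + A).det - 1 - LinearMap.trace ℝ X (A : X →ₗ[ℝ] X)| ≤ ε * ‖A‖ := by
  classical
  set b := (stdOrthonormalBasis ℝ X).toBasis with hb
  obtain ⟨L, hL, hLt⟩ := det_fderiv (n := Module.finrank ℝ X)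
  let f : (X →L[ℝ] X) →ₗ[ℝ] (Fin (Module.finrank ℝ X) → Fin (Module.finrank ℝ X) → ℝ) :=
    { toFun := fun A i j => LinearMap.toMatrix b b (A : X →ₗ[ℝ] X) i j
      map_add' := fun A B => by
        funext i j
        simp
      map_smul' := fun c A => by
        funext i j
        simp }
  let F : (X →L[ℝ] X) →L[ℝ] (Fin (Module.finrank ℝ X) → Fin (Module.finrank ℝ X) → ℝ) :=
    LinearMap.toContinuousLinearMap f
  have hdet : ∀ A : X →L[ℝ] X, A.det = Matrix.det (Matrix.of (F A)) := by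
    intro A
    change LinearMap.det (A : X →ₗ[ℝ] X) = _
    rw [← LinearMap.det_toMatrix b]
    rfl
  have hF1 : F 1 = fun i j => (1 : Matrix (Fin (Module.finrank ℝ X))
      (Fin (Module.finrank ℝ X)) ℝ) i j := by
    funext i j
    have h1 : LinearMap.toMatrix b b ((1 : X →L[ℝ] X) : X →ₗ[ℝ] X) = 1 := by
      have : ((1 : X →L[ℝ] X) : X →ₗ[ℝ] X) = LinearMap.id := rfl
      rw [this, LinearMap.toMatrix_id]
    change LinearMap.toMatrix b b ((1 : X →L[ℝ] X) : X →ₗ[ℝ] X) i j = _
    rw [h1]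
  have hL' : HasFDerivAt (fun M : Fin (Module.finrank ℝ X) → Fin (Module.finrank ℝ X) → ℝ =>
      Matrix.det (Matrix.of M)) L (F 1) := by
    rw [hF1]
    exact hL
  have h2 : HasFDerivAt (fun A : X →L[ℝ] X => Matrix.det (Matrix.of (F A))) (L.comp F) 1 :=
    HasFDerivAt.comp (1 : X →L[ℝ] X) hL' F.hasFDerivAt
  have htr : ∀ A : X →L[ℝ] X, (L.comp F) A = LinearMap.trace ℝ X (A : X →ₗ[ℝ] X) := by
    intro A
    rw [LinearMap.trace_eq_matrix_trace ℝ b, ← hLt]
    rfl
  rw [hasFDerivAt_iff_isLittleO_nhds_zero] at h2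
  have h3 := h2.def hε
  obtain ⟨δ, hδ, h4⟩ := Metric.eventually_nhds_iff_ball.1 h3
  refine ⟨δ, hδ, fun A hA => ?_⟩
  have h5 := h4 A (by simpa using hA)
  rw [← hdet, ← hdet, htr, Real.norm_eq_abs] at h5
  have h6 : (1 : X →L[ℝ] X).det = 1 := by
    change LinearMap.det ((1 : X →L[ℝ] X) : X →ₗ[ℝ] X) = 1
    have : ((1 : X →L[ℝ] X) : X →ₗ[ℝ] X) = LinearMap.id := rfl
    rw [this, LinearMap.det_id]
  rw [h6] at h5
  exact h5

variable [MeasurableSpace X] [BorelSpace X]

theorem mink_aux (E : Set X) (C : ℝ) (hE : IsCompact E) (hC : 0 ≤ C)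
    (hev : ∀ᶠ t in 𝓝[>] (0 : ℝ), volume (cthickening t E) ≤ volume E + ENNReal.ofReal (C * t))
    (φ : X → X) (hφ : ContDiff ℝ 1 φ) (hc : HasCompactSupport φ) (h1 : ∀ x, ‖φ x‖ ≤ 1) :
    ∫ x in E, LinearMap.trace ℝ X (fderiv ℝ φ x : X →ₗ[ℝ] X) ≤ C := by
  obtain ⟨K, hK⟩ := hφ.lipschitzWith_of_hasCompactSupport hc (by simp)
  have hK' : ∀ x, ‖fderiv ℝ φ x‖ ≤ K := fun x => norm_fderiv_le_of_lipschitz ℝ hK
  have hvE : volume E ≠ ⊤ := hE.measure_lt_top.ne
  set v := (volume E).toReal with hv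
  have hv0 : 0 ≤ v := ENNReal.toReal_nonneg
  have hcd : Continuous fun x => fderiv ℝ φ x := hφ.continuous_fderiv (by simp)
  have htrc : Continuous fun x => LinearMap.trace ℝ X (fderiv ℝ φ x : X →ₗ[ℝ] X) := by
    have : Continuous fun A : X →L[ℝ] X => LinearMap.trace ℝ X (A : X →ₗ[ℝ] X) := by
      let l : (X →L[ℝ] X) →ₗ[ℝ] ℝ := (LinearMap.trace ℝ X).comp (ContinuousLinearMap.coeLM ℝ)
      exact l.continuous_of_finiteDimensional
    exact this.comp hcd
  -- the estimate with an error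
  have key : ∀ ε : ℝ, 0 < ε →
      ∫ x in E, LinearMap.trace ℝ X (fderiv ℝ φ x : X →ₗ[ℝ] X) ≤ C + ε * (K * v) := by
    intro ε hε
    obtain ⟨δ, hδ, hdet⟩ := det_near (X := X) hε
    have hev2 : ∀ᶠ t : ℝ in 𝓝[>] (0 : ℝ), 0 < t ∧ t * (K : ℝ) < 1 ∧ t * (K : ℝ) < δ := by
      have e0 : ∀ᶠ t in 𝓝[>] (0 : ℝ), 0 < t := self_mem_nhdsWithin
      have e1 : Tendsto (fun t : ℝ => t * (K : ℝ)) (𝓝[>] (0 : ℝ)) (𝓝 0) := by
        have : Tendsto (fun t : ℝ => t * (K : ℝ)) (𝓝 (0 : ℝ)) (𝓝 (0 * (K : ℝ))) :=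
          (continuous_id.mul continuous_const).tendsto 0
        rw [zero_mul] at this
        exact this.mono_left nhdsWithin_le_nhds
      filter_upwards [e0, e1.eventually_lt_const zero_lt_one, e1.eventually_lt_const hδ]
        with t ha hb hc
      exact ⟨ha, hb, hc⟩
    obtain ⟨t, hvt, ht0, htK, htδ⟩ := (hev.and hev2).exists
    -- the map
    set F : X → X := fun x => x + t • φ x with hF
    have hFd : ∀ x ∈ E, HasFDerivWithinAt F (1 + t • fderiv ℝ φ x) E x := by
      intro x _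
      have hd := (hφ.differentiable (by simp) x).hasFDerivAt
      exact ((hasFDerivAt_id x).add (hd.const_smul t)).hasFDerivWithinAt
    have hFi : InjOn F E := by
      intro x _ y _ hxy
      have h2 : x - y = t • (φ y - φ x) := by
        have : x + t • φ x = y + t • φ y := hxy
        rw [smul_sub]
        have h3 : x - y = (x + t • φ x) - (y + t • φ y) + (t • φ y - t • φ x) := by abel
        rw [h3, this]
        abel
      have h3 : ‖x - y‖ ≤ (t * K) * ‖x - y‖ := by
        calc ‖x - y‖ = t * ‖φ y - φ x‖ := by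
              rw [h2, norm_smul, Real.norm_eq_abs, abs_of_pos ht0]
          _ ≤ t * (K * ‖y - x‖) := by
              refine mul_le_mul_of_nonneg_left ?_ ht0.le
              have := hK.dist_le_mul y x
              rwa [dist_eq_norm, dist_eq_norm] at this
          _ = (t * K) * ‖x - y‖ := by rw [norm_sub_rev y x]; ring
      have h4 : ‖x - y‖ = 0 := by
        by_contra hne
        have hpos : 0 < ‖x - y‖ := lt_of_le_of_ne (norm_nonneg _) (Ne.symm hne)
        nlinarith
      exact sub_eq_zero.1 (norm_eq_zero.1 h4)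
    have hvol := lintegral_abs_det_fderiv_eq_addHaar_image volume hE.measurableSet hFd hFi
    have hsub : F '' E ⊆ cthickening t E := by
      rintro _ ⟨x, hx, rfl⟩
      refine mem_cthickening_of_dist_le _ x t E hx ?_
      rw [dist_eq_norm]
      have : F x - x = t • φ x := by simp [hF]
      rw [this, norm_smul, Real.norm_eq_abs, abs_of_pos ht0]
      calc t * ‖φ x‖ ≤ t * 1 := mul_le_mul_of_nonneg_left (h1 x) ht0.le
        _ = t := mul_one t
    have hcdet : Continuous fun x => |(1 + t • fderiv ℝ φ x).det| := by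
      have : Continuous fun x => (1 + t • fderiv ℝ φ x : X →L[ℝ] X) :=
        continuous_const.add (hcd.const_smul t)
      exact (ContinuousLinearMap.continuous_det.comp this).abs
    have hint1 : IntegrableOn (fun x => |(1 + t • fderiv ℝ φ x).det|) E volume :=
      hcdet.continuousOn.integrableOn_compact hE
    have hreal : ∫ x in E, |(1 + t • fderiv ℝ φ x).det| ≤ v + C * t := by
      rw [integral_eq_lintegral_of_nonneg_ae (Eventually.of_forall fun x => abs_nonneg _)
        hint1.aestronglyMeasurable]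
      have h5 : ∫⁻ x in E, ENNReal.ofReal |(1 + t • fderiv ℝ φ x).det| ≤
          volume E + ENNReal.ofReal (C * t) := by
        rw [hvol]
        exact (measure_mono hsub).trans hvt
      have h6 := ENNReal.toReal_mono (ENNReal.add_ne_top.2 ⟨hvE, ENNReal.ofReal_ne_top⟩) h5
      rwa [ENNReal.toReal_add hvE ENNReal.ofReal_ne_top,
        ENNReal.toReal_ofReal (mul_nonneg hC ht0.le)] at h6
    have hint2 : IntegrableOn (fun x => (1 - ε * (t * K)) +
        t * LinearMap.trace ℝ X (fderiv ℝ φ x : X →ₗ[ℝ] X)) E volume :=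
      (continuous_const.add (continuous_const.mul htrc)).continuousOn.integrableOn_compact hE
    have hpt : ∀ x, (1 - ε * (t * K)) + t * LinearMap.trace ℝ X (fderiv ℝ φ x : X →ₗ[ℝ] X) ≤
        |(1 + t • fderiv ℝ φ x).det| := by
      intro x
      have hn : ‖t • fderiv ℝ φ x‖ ≤ t * K := by
        rw [norm_smul, Real.norm_eq_abs, abs_of_pos ht0]
        exact mul_le_mul_of_nonneg_left (hK' x) ht0.le
      have h7 := hdet (t • fderiv ℝ φ x) (lt_of_le_of_lt hn htδ)
      have h8 : LinearMap.trace ℝ X ((t • fderiv ℝ φ x : X →L[ℝ] X) : X →ₗ[ℝ] X) =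
          t * LinearMap.trace ℝ X (fderiv ℝ φ x : X →ₗ[ℝ] X) := by
        rw [ContinuousLinearMap.toLinearMap_smul, map_smul, smul_eq_mul]
      rw [h8] at h7
      have h9 := (abs_le.1 h7).1
      have h10 := mul_le_mul_of_nonneg_left hn hε.le
      have h11 := le_abs_self ((1 + t • fderiv ℝ φ x).det)
      linarith
    have hmono := setIntegral_mono hint2 hint1 (fun x => hpt x)
    have hIc : ∫ x in E, ((1 - ε * (t * K)) +
        t * LinearMap.trace ℝ X (fderiv ℝ φ x : X →ₗ[ℝ] X)) =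
        (1 - ε * (t * K)) * v + t * ∫ x in E, LinearMap.trace ℝ X (fderiv ℝ φ x : X →ₗ[ℝ] X) := by
      have i1 : Integrable (fun _ : X => (1 - ε * (t * (K : ℝ)))) (volume.restrict E) :=
        (continuous_const.continuousOn).integrableOn_compact hE
      have i2 : Integrable (fun x => t * LinearMap.trace ℝ X (fderiv ℝ φ x : X →ₗ[ℝ] X))
          (volume.restrict E) :=
        (continuous_const.mul htrc).continuousOn.integrableOn_compact hE
      rw [integral_add i1 i2, integral_const_mul, setIntegral_const, smul_eq_mul,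
        measureReal_def, mul_comm (volume E).toReal]
    rw [hIc] at hmono
    have hfin := hmono.trans hreal
    have h12 : t * ∫ x in E, LinearMap.trace ℝ X (fderiv ℝ φ x : X →ₗ[ℝ] X) ≤
        t * (C + ε * (K * v)) := by nlinarith
    exact le_of_mul_le_mul_left h12 ht0
  refine le_of_forall_pos_le_add fun ε' hε' => ?_
  have hKv : 0 ≤ K * v := mul_nonneg K.2 hv0
  have h2 := key (ε' / (K * v + 1)) (by positivity)
  refine h2.trans ?_
  have h3 : ε' / (K * v + 1) * (K * v) ≤ ε' := by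
    rw [div_mul_eq_mul_div, div_le_iff₀ (by positivity)]
    nlinarith
  linarith

end

/-- JOB MINK. -/
theorem mink : Q187.PS.S_Mink := by
  intro X _ _ _ _ _ E C hE hC hev
  unfold Q187.PS.per
  refine iSup_le fun φ => iSup_le fun hφ => iSup_le fun hc => iSup_le fun h1 => ?_
  exact ENNReal.ofReal_le_ofReal (mink_aux E C hE hC hev φ hφ hc h1)

end Pool.Agent.Q199.PS
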